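import Pool.Agent.helper82.T5.SpecS

set_option autoImplicit false

namespace Pool.Agent.T5

open Finset NumberField Pool.Agent.helper3.FT Pool.Agent.helper47.RA

theorem SMA_DN {N : ℝ} (hN : N < 1) : DN N = ∅ := by
  classical
  unfold DN
  have h1 : ⌊N⌋ ≤ 0 := by
    have : ⌊N⌋ < 1 := Int.floor_lt.2 (by exact_mod_cast hN)
    omega
  have h2 : Icc (-⌊N⌋) (-1 : ℤ) = ∅ := Finset.Icc_eq_empty (by omega)
  rw [h2]
  rfl

theorem SMA_cA (D : ℤ) {Y : ℝ} (hY : Y < 1) : cA D Y = 0 := by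
  classical
  unfold cA
  split_ifs with h
  · have h1 : IA h.some.K Y = ∅ := by
      rw [Set.eq_empty_iff_forall_notMem]
      rintro a ⟨h0, -, -, -, -, h2⟩
      have h3 : (1 : ℝ) ≤ (Ideal.absNorm a : ℝ) := by
        exact_mod_cast Nat.one_le_iff_ne_zero.2 (fun h => h0 (Ideal.absNorm_eq_zero_iff.1 h))
      linarith
    rw [h1]
    exact Set.ncard_empty _
  · rfl

theorem SMA (hSR2 : SR2_stmt) (hSR3 : SR3_stmt) : SMA_stmt := by
  classical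
  intro hU hL hUU h hh δ hδ ε hε
  obtain ⟨N₀, hN₀, H⟩ := hSR3 (fun N Y => ∑ D ∈ DN N, (cA D Y : ℝ))
    (fun N Y => Finset.sum_nonneg (fun D _ => Nat.cast_nonneg _))
    (fun N Y hN => by
      show ∑ D ∈ DN N, (cA D Y : ℝ) = 0
      rw [SMA_DN hN, Finset.sum_empty])
    (fun N Y hY => by
      show ∑ D ∈ DN N, (cA D Y : ℝ) = 0
      refine Finset.sum_eq_zero (fun D _ => ?_)
      rw [SMA_cA D hY]
      exact Nat.cast_zero)
    (fun δ' h1 h2 ε' h3 => by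
      obtain ⟨N₁, H1⟩ := hU δ' h1 h2 ε' h3
      obtain ⟨N₂, H2⟩ := hL δ' h1 h2 ε' h3
      refine ⟨max N₁ N₂, fun N Y hN hY hY' => ?_⟩
      have a1 := H1 N Y (le_trans (le_max_left _ _) hN) hY hY'
      have a2 := H2 N Y (le_trans (le_max_right _ _) hN) hY hY'
      show |∑ D ∈ DN N, (cA D Y : ℝ) - c0 * (Y * √N)| ≤ ε' * (Y * √N)
      rw [abs_le]
      constructor <;> linarith)
    hUU δ hδ ε hε
  refine ⟨N₀, fun N Y hN hY hY' => ?_⟩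
  obtain ⟨I₀, R₁, J₀, H3⟩ := H N Y hN hY hY'
  have hN1 : 1 ≤ N := hN₀.trans hN
  have hY0 : 0 < Y := lt_of_lt_of_le (Real.rpow_pos_of_pos (by linarith) _) hY
  obtain ⟨I₁, hI₁⟩ := pow_unbounded_of_one_lt N (by norm_num : (1 : ℝ) < 2)
  obtain ⟨J₁, hJ₁⟩ := pow_unbounded_of_one_lt Y (by norm_num : (1 : ℝ) < 2)
  have hI : N < 2 ^ (max I₀ I₁) := lt_of_lt_of_le hI₁ (pow_le_pow_right₀ (by norm_num) (le_max_right _ _))
  have hJ : Y < 2 ^ (max J₀ J₁) := lt_of_lt_of_le hJ₁ (pow_le_pow_right₀ (by norm_num) (le_max_right _ _))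
  have hR : Y < (((max R₁ ⌈Y⌉₊ : ℕ) : ℝ) + 1) ^ 2 := by
    have h1 : Y ≤ ((max R₁ ⌈Y⌉₊ : ℕ) : ℝ) := (Nat.le_ceil Y).trans (by exact_mod_cast le_max_right _ _)
    nlinarith
  have h4 := hSR2 h hh N Y _ _ _ hN1 hY0 hI hR hJ
  rw [h4]
  exact H3 _ _ _ (le_max_left _ _) (le_max_left _ _) (le_max_left _ _)

end Pool.Agent.T5
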