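import Pool.Agent.helper82.T5.SpecS

set_option autoImplicit false

namespace Pool.Agent.T5

open Finset NumberField Pool.Agent.helper3.FT Pool.Agent.helper47.RA

variable {K : Type} [Field K] [NumberField K]

theorem SR1_fin (Y : ℝ) : {a : Ideal (𝓞 K) | (Ideal.absNorm a : ℝ) ≤ Y}.Finite := by
  refine (Ideal.finite_setOfPred_absNorm_le (S := 𝓞 K) ⌊Y⌋₊).subset ?_
  intro a ha
  exact Nat.le_floor ha

theorem SR1_nz {r : ℕ} (hr : 1 ≤ r) : Ideal.span {(r : 𝓞 K)} ≠ ⊥ := by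
  rw [Ne, Ideal.span_singleton_eq_bot]
  exact_mod_cast (by omega : r ≠ 0)

theorem SR1_norm (h2 : Module.finrank ℚ K = 2) (r : ℕ) (b : Ideal (𝓞 K)) :
    Ideal.absNorm (Ideal.span {(r : 𝓞 K)} * b) = r ^ 2 * Ideal.absNorm b := by
  rw [map_mul, Ideal.absNorm_span_natCast, RingOfIntegers.rank, h2]

theorem SR1_exists (h2 : Module.finrank ℚ K = 2) : ∀ (n : ℕ) (a : Ideal (𝓞 K)), Ideal.absNorm a ≤ n → a ≠ ⊥ →
    ∃ (r : ℕ) (b : Ideal (𝓞 K)), 1 ≤ r ∧ Prim b ∧ a = Ideal.span {(r : 𝓞 K)} * b := by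
  intro n
  induction n with
  | zero =>
    intro a ha h0
    exact absurd (Ideal.absNorm_eq_zero_iff.1 (by omega)) h0
  | succ n ih =>
    intro a ha h0
    by_cases hp : Prim a
    · exact ⟨1, a, le_refl _, hp, by simp⟩
    · unfold Prim at hp
      push Not at hp
      obtain ⟨q, hq, c, hc⟩ := hp
      have hc0 : c ≠ ⊥ := by
        rintro rfl
        exact h0 (by rw [hc, Ideal.mul_bot])
      have h1 : Ideal.absNorm a = q ^ 2 * Ideal.absNorm c := by rw [hc, SR1_norm h2]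
      have h3 : 1 ≤ Ideal.absNorm c := Nat.one_le_iff_ne_zero.2 (fun h => hc0 (Ideal.absNorm_eq_zero_iff.1 h))
      have h4 : 2 ≤ q := hq.two_le
      have h5 : Ideal.absNorm c ≤ n := by
        have h6 : 4 * Ideal.absNorm c ≤ q ^ 2 * Ideal.absNorm c := Nat.mul_le_mul_right _ (by nlinarith)
        omega
      obtain ⟨r, b, hr, hb, e⟩ := ih c h5 hc0
      refine ⟨q * r, b, Nat.one_le_iff_ne_zero.2 (by positivity), hb, ?_⟩
      rw [hc, e, ← mul_assoc, Ideal.span_singleton_mul_span_singleton]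
      push_cast
      rfl

theorem SR1_cop {q r : ℕ} (h : Nat.Coprime q r) :
    IsCoprime (Ideal.span {(q : 𝓞 K)}) (Ideal.span {(r : 𝓞 K)}) := by
  rw [Ideal.isCoprime_span_singleton_iff]
  have h1 : IsCoprime (q : ℤ) (r : ℤ) := Nat.isCoprime_iff_coprime.2 h
  have h2 := h1.map (Int.castRingHom (𝓞 K))
  simpa using h2

theorem SR1_one {r r' : ℕ} (hr' : 1 ≤ r') (hc : Nat.Coprime r r') {b b' : Ideal (𝓞 K)} (hb : Prim b)
    (h : Ideal.span {(r : 𝓞 K)} * b = Ideal.span {(r' : 𝓞 K)} * b') : r' = 1 := by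
  by_contra h1
  obtain ⟨q, hq, hqr⟩ := Nat.exists_prime_and_dvd h1
  have h2 : Ideal.span {(q : 𝓞 K)} ∣ Ideal.span {(r : 𝓞 K)} * b := by
    rw [h]
    refine Dvd.dvd.mul_right ?_ _
    rw [Ideal.dvd_span_singleton, Ideal.mem_span_singleton]
    exact_mod_cast (Nat.cast_dvd_cast hqr : (q : 𝓞 K) ∣ (r' : 𝓞 K))
  have h3 : Nat.Coprime q r := (Nat.Coprime.coprime_dvd_right hqr hc).symm
  exact hb q hq ((SR1_cop h3).dvd_of_dvd_mul_left h2)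

theorem SR1_inj {r r' : ℕ} (hr : 1 ≤ r) (hr' : 1 ≤ r') {b b' : Ideal (𝓞 K)} (hb : Prim b) (hb' : Prim b')
    (h : Ideal.span {(r : 𝓞 K)} * b = Ideal.span {(r' : 𝓞 K)} * b') : r = r' ∧ b = b' := by
  have hg : 0 < Nat.gcd r r' := Nat.gcd_pos_of_pos_left _ hr
  obtain ⟨s, s', hs, e, e'⟩ : ∃ s s' : ℕ, Nat.Coprime s s' ∧ r = s * Nat.gcd r r' ∧ r' = s' * Nat.gcd r r' :=
    Nat.exists_coprime r r'
  set g := Nat.gcd r r' with hgd
  have h1 : Ideal.span {(g : 𝓞 K)} * (Ideal.span {(s : 𝓞 K)} * b) = Ideal.span {(g : 𝓞 K)} * (Ideal.span {(s' : 𝓞 K)} * b') := by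
    rw [← mul_assoc, ← mul_assoc, Ideal.span_singleton_mul_span_singleton, Ideal.span_singleton_mul_span_singleton,
      ← Nat.cast_mul, ← Nat.cast_mul, mul_comm g s, mul_comm g s', ← e, ← e', h]
  have h2 := mul_left_cancel₀ (SR1_nz (K := K) (r := g) hg) h1
  have hs1 : 1 ≤ s := by
    rcases Nat.eq_zero_or_pos s with h0 | h0
    · rw [h0] at e; omega
    · exact h0
  have hs1' : 1 ≤ s' := by
    rcases Nat.eq_zero_or_pos s' with h0 | h0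
    · rw [h0] at e'; omega
    · exact h0
  have a1 : s' = 1 := SR1_one hs1' hs hb h2
  have a2 : s = 1 := SR1_one hs1 hs.symm hb' h2.symm
  have h3 : r = r' := by rw [e, e', a1, a2]
  refine ⟨h3, ?_⟩
  rw [a1, a2] at h2
  exact mul_left_cancel₀ (SR1_nz (K := K) (r := 1) (le_refl _)) h2

theorem SR1_prin {r : ℕ} (hr : 1 ≤ r) (b : Ideal (𝓞 K)) (h : (Ideal.span {(r : 𝓞 K)} * b).IsPrincipal) :
    b.IsPrincipal := by
  obtain ⟨y, hy⟩ := h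
  have hy' : Ideal.span {(r : 𝓞 K)} * b = Ideal.span {y} := hy
  have h1 : y ∈ Ideal.span {(r : 𝓞 K)} := by
    have h4 : Ideal.span {(r : 𝓞 K)} ∣ Ideal.span {y} := Dvd.intro b hy'
    rw [Ideal.dvd_span_singleton] at h4
    exact h4
  obtain ⟨z, hz⟩ := Ideal.mem_span_singleton.1 h1
  have h2 : Ideal.span {(r : 𝓞 K)} * b = Ideal.span {(r : 𝓞 K)} * Ideal.span {z} := by
    rw [hy', Ideal.span_singleton_mul_span_singleton, hz]
  have h3 : b = Ideal.span {z} := mul_left_cancel₀ (SR1_nz hr) h2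
  exact ⟨z, h3⟩

theorem SR1_prin' (r : ℕ) (b : Ideal (𝓞 K)) (h : b.IsPrincipal) :
    (Ideal.span {(r : 𝓞 K)} * b).IsPrincipal := by
  obtain ⟨y, hy⟩ := h
  have hy' : b = Ideal.span {y} := hy
  have h1 : Ideal.span {(r : 𝓞 K)} * b = Ideal.span {(r : 𝓞 K) * y} := by
    rw [hy', Ideal.span_singleton_mul_span_singleton]
  exact ⟨(r : 𝓞 K) * y, h1⟩

theorem SR1_pow (r : ℕ) (b : Ideal (𝓞 K)) :
    (Ideal.span {(r : 𝓞 K)} * b) ^ 5 = Ideal.span {((r ^ 5 : ℕ) : 𝓞 K)} * b ^ 5 := by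
  rw [mul_pow, Ideal.span_singleton_pow]
  push_cast
  rfl

theorem SR1_pos {b : Ideal (𝓞 K)} (hb : b ≠ ⊥) : (1 : ℝ) ≤ (Ideal.absNorm b : ℝ) := by
  exact_mod_cast Nat.one_le_iff_ne_zero.2 (fun h => hb (Ideal.absNorm_eq_zero_iff.1 h))

theorem SR1_mem (h2 : Module.finrank ℚ K = 2) {Y : ℝ} (hY : 0 < Y) {r : ℕ} (hr : 1 ≤ r) (j : ℕ)
    {b : Ideal (𝓞 K)} (hb : b ∈ IA K (Y / ((r : ℝ) ^ 2 * 2 ^ j))) :
    Ideal.span {(r : 𝓞 K)} * b ∈ ALLI K Y := by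
  obtain ⟨h0, -, h5, hn, -, hY'⟩ := hb
  refine ⟨mul_ne_zero (SR1_nz hr) h0, ?_, fun h => hn (SR1_prin hr b h), ?_⟩
  · rw [SR1_pow]
    exact SR1_prin' _ _ h5
  · rw [SR1_norm h2]
    push_cast
    have hr0 : (0 : ℝ) < (r : ℝ) ^ 2 := by positivity
    have h3 : (1 : ℝ) ≤ 2 ^ j := one_le_pow₀ (by norm_num)
    have h4 : (r : ℝ) ^ 2 * (Ideal.absNorm b : ℝ) ≤ (r : ℝ) ^ 2 * (Y / ((r : ℝ) ^ 2 * 2 ^ j)) :=
      mul_le_mul_of_nonneg_left hY' hr0.le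
    have h5 : (r : ℝ) ^ 2 * (Y / ((r : ℝ) ^ 2 * 2 ^ j)) = Y / 2 ^ j := by
      field_simp
    rw [h5] at h4
    exact h4.trans (div_le_self hY.le h3)

theorem SR1_surj (h2 : Module.finrank ℚ K = 2) {Y : ℝ} {R₀ J : ℕ} (hY : 0 < Y)
    (hR : Y < ((R₀ : ℝ) + 1) ^ 2) (hJ : Y < 2 ^ J) {a : Ideal (𝓞 K)} (ha : a ∈ ALLI K Y) :
    ∃ r j : ℕ, (1 ≤ r ∧ r ≤ R₀) ∧ j < J ∧ ∃ b ∈ IA K (Y / ((r : ℝ) ^ 2 * 2 ^ j)), Ideal.span {(r : 𝓞 K)} * b = a := by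
  obtain ⟨h0, h5, hn, hY'⟩ := ha
  obtain ⟨r, b, hr, hb, e⟩ := SR1_exists h2 _ a (le_refl _) h0
  have hb0 : b ≠ ⊥ := by
    rintro rfl
    exact h0 (by rw [e, Ideal.mul_bot])
  have hb1 := SR1_pos hb0
  have hr1 : (1 : ℝ) ≤ (r : ℝ) := by exact_mod_cast hr
  have hr0 : (0 : ℝ) < (r : ℝ) ^ 2 := by positivity
  have hN : (r : ℝ) ^ 2 * (Ideal.absNorm b : ℝ) ≤ Y := by
    have := hY'
    rw [e, SR1_norm h2] at this
    push_cast at this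
    exact this
  have hrR : r ≤ R₀ := by
    by_contra hlt
    have h6 : (R₀ : ℝ) + 1 ≤ (r : ℝ) := by exact_mod_cast (by omega : R₀ + 1 ≤ r)
    have h7 : ((R₀ : ℝ) + 1) ^ 2 ≤ (r : ℝ) ^ 2 := by
      have : (0 : ℝ) ≤ (R₀ : ℝ) + 1 := by positivity
      nlinarith
    nlinarith
  have hx : (1 : ℝ) ≤ Y / ((r : ℝ) ^ 2 * (Ideal.absNorm b : ℝ)) := by
    rw [le_div_iff₀ (by positivity)]
    linarith
  obtain ⟨j, hj1, hj2⟩ := exists_nat_pow_near hx (by norm_num : (1 : ℝ) < 2)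
  have hB0 : (0 : ℝ) < (r : ℝ) ^ 2 * (Ideal.absNorm b : ℝ) := by positivity
  rw [le_div_iff₀ hB0] at hj1
  rw [div_lt_iff₀ hB0] at hj2
  have hjJ : j < J := by
    by_contra hlt
    have h6 : (2 : ℝ) ^ J ≤ 2 ^ j := pow_le_pow_right₀ (by norm_num) (by omega)
    have h7 : (1 : ℝ) ≤ (r : ℝ) ^ 2 * (Ideal.absNorm b : ℝ) := by nlinarith
    have h8 : (0 : ℝ) < 2 ^ j := by positivity
    nlinarith
  refine ⟨r, j, ⟨hr, hrR⟩, hjJ, b, ⟨hb0, hb, ?_, ?_, ?_, ?_⟩, e.symm⟩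
  · rw [e, SR1_pow] at h5
    exact SR1_prin (Nat.one_le_iff_ne_zero.2 (by positivity)) _ h5
  · intro h
    exact hn (by rw [e]; exact SR1_prin' _ _ h)
  · rw [div_div, div_lt_iff₀ (by positivity)]
    have : (2 : ℝ) ^ (j + 1) = 2 ^ j * 2 := pow_succ _ _
    rw [this] at hj2
    nlinarith
  · rw [le_div_iff₀ (by positivity)]
    nlinarith

theorem SR1_jeq {Y x : ℝ} (hY : 0 < Y) {r j j' : ℕ} (hr : 1 ≤ r) (h1 : x ≤ Y / ((r : ℝ) ^ 2 * 2 ^ j))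
    (h2 : Y / ((r : ℝ) ^ 2 * 2 ^ j') / 2 < x) : j ≤ j' := by
  by_contra hlt
  have h3 : (2 : ℝ) ^ (j' + 1) ≤ 2 ^ j := pow_le_pow_right₀ (by norm_num) (by omega)
  have hr0 : (0 : ℝ) < (r : ℝ) ^ 2 := by positivity
  have h4 : Y / ((r : ℝ) ^ 2 * 2 ^ j) ≤ Y / ((r : ℝ) ^ 2 * 2 ^ (j' + 1)) := by
    apply div_le_div_of_nonneg_left hY.le (by positivity)
    exact mul_le_mul_of_nonneg_left h3 hr0.le
  have h5 : Y / ((r : ℝ) ^ 2 * 2 ^ (j' + 1)) = Y / ((r : ℝ) ^ 2 * 2 ^ j') / 2 := by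
    rw [div_div]
    have h6 : (r : ℝ) ^ 2 * 2 ^ (j' + 1) = (r : ℝ) ^ 2 * 2 ^ j' * 2 := by ring
    rw [h6]
  rw [h5] at h4
  linarith

theorem SR1 : SR1_stmt := by
  classical
  intro K _ _ _ h2 Y R₀ J hY hR hJ
  have hfA : ∀ Z : ℝ, (IA K Z).Finite := fun Z => (SR1_fin (K := K) Z).subset (fun a ha => ha.2.2.2.2.2)
  have hfL : (ALLI K Y).Finite := (SR1_fin (K := K) Y).subset (fun a ha => ha.2.2.2)
  set G : ℕ × ℕ → Finset (Ideal (𝓞 K)) := fun p =>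
    (hfA (Y / ((p.1 : ℝ) ^ 2 * 2 ^ p.2))).toFinset.image (fun b => Ideal.span {(p.1 : 𝓞 K)} * b) with hG
  have hU : hfL.toFinset = ((Icc 1 R₀) ×ˢ (range J)).biUnion G := by
    ext a
    simp only [Set.Finite.mem_toFinset, Finset.mem_biUnion, Finset.mem_product, Finset.mem_Icc, Finset.mem_range,
      hG, Finset.mem_image]
    constructor
    · intro ha
      obtain ⟨r, j, hr, hj, b, hb, e⟩ := SR1_surj h2 hY hR hJ ha
      exact ⟨(r, j), ⟨hr, hj⟩, b, hb, e⟩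
    · rintro ⟨⟨r, j⟩, ⟨hr, hj⟩, b, hb, e⟩
      rw [← e]
      exact SR1_mem h2 hY hr.1 j hb
  have hD : ∀ p ∈ (Icc 1 R₀) ×ˢ (range J), ∀ p' ∈ (Icc 1 R₀) ×ˢ (range J), p ≠ p' → Disjoint (G p) (G p') := by
    rintro ⟨r, j⟩ hp ⟨r', j'⟩ hp' hne
    rw [Finset.mem_product, Finset.mem_Icc] at hp hp'
    rw [Finset.disjoint_left]
    intro a ha ha'
    simp only [hG, Finset.mem_image, Set.Finite.mem_toFinset] at ha ha'
    obtain ⟨b, hb, e⟩ := ha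
    obtain ⟨b', hb', e'⟩ := ha'
    obtain ⟨e1, e2⟩ := SR1_inj hp.1.1 hp'.1.1 hb.2.1 hb'.2.1 (e.trans e'.symm)
    subst e1
    subst e2
    have h3 : j ≤ j' := SR1_jeq hY hp.1.1 hb.2.2.2.2.2 hb'.2.2.2.2.1
    have h4 : j' ≤ j := SR1_jeq hY hp.1.1 hb'.2.2.2.2.2 hb.2.2.2.2.1
    exact hne (by rw [le_antisymm h3 h4])
  rw [Set.ncard_eq_toFinset_card _ hfL, hU, Finset.card_biUnion hD, Finset.sum_product]
  refine Finset.sum_congr rfl (fun r hr => Finset.sum_congr rfl (fun j _ => ?_))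
  rw [Set.ncard_eq_toFinset_card _ (hfA _)]
  refine Finset.card_image_of_injective _ ?_
  intro b b' h
  exact mul_left_cancel₀ (SR1_nz (Finset.mem_Icc.1 hr).1) h

end Pool.Agent.T5
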